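import Pool.Agent.TH526.ZT.E

/-!
# MP_b7926e_nt: Zilber's conjecture for almost all `S`-unit translates of an arbitrary subvariety

Let `V` be an arbitrary irreducible subvariety of the torus `(ℂ^×)^n`. There is a number `K`,
depending only on `V`, such that for every set `S` of `N` prime numbers, small or large, the
following holds. Consider the translates `g V` by the points `g_j = ∏_i p_i ^ e_ij`, `|e_ij| ≤ R`, of
the torus with coordinates in the group generated by `S`; there are `(2 R + 1) ^ (n N)` of them. The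
number of these `g` for which `g V` has any atypical subvariety is at most
`c (2 R + 1) ^ (n N + n - 1 - t)`, if `K t < N`. So if `N > K n` then 100 % of the translates `g V` have no
atypical subvariety, and the exponent is at most `(n - 1 / K) N + n`.

More generally, let `v_i`, `i < N`, be any absolute values of the field `ℂ`, archimedean or not. The
translates `g V`, `g` in `(ℂ^×)^n`, have only typical intersections with all cosets `η H` such that
the numbers `log v_i(η_j)` are bounded by `B`, provided that the matrix `(log v_i(g_j))` is at a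
distance at most `B` of an integral matrix `e` of size at most `R` which is not in an exceptional
set, of at most `c (2 R + 1) ^ (n N + n - 1 - t)` elements, which depends only on `V`, `v`, `B`, `R`.

The starting files `NoAtypical` (of this problem) and `Translates` (of `MP_c95b3b_ag`) find a
positive proportion of the integral vectors `g` (one residue class).
-/

set_option autoImplicit false

namespace Pool.Agent.Results.MP_b7926e_nt.AlmostAllSUnitTranslates

open MvPolynomial
open Pool.Agent.Results.MP_b7926e_nt.NoAtypical (coset idealOf dim mem_idealOf NoAtypicalSubvariety)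

/-- The translate of `V` by the vector `g`. -/
def translate {n : ℕ} (g : Fin n → ℂ) (V : Set (Fin n → ℂ)) : Set (Fin n → ℂ) :=
  {y | ∃ x ∈ V, ∀ i, y i = g i * x i}

/-- Every irreducible subset `A` of the intersection of `W` with a coset `η H`, such that all the
numbers `log v_i(η_j)` are bounded by `B`, satisfies `dim A ≤ dim W + dim H - n`, where
`dim H = n - rank M`. The torsion cosets are such cosets for every `B ≥ 0`. -/
def NoAtypicalWithin {n N : ℕ} (v : Fin N → AbsoluteValue ℂ ℝ) (B : ℝ)
    (W : Set (Fin n → ℂ)) : Prop :=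
  ∀ (M : Submodule ℤ (Fin n → ℤ)) (η : Fin n → ℂ), (∀ j, η j ≠ 0) →
    (∀ i j, |Real.log (v i (η j))| ≤ B) →
      ∀ A : Set (Fin n → ℂ), A ⊆ W → A ⊆ coset M η → (idealOf A).IsPrime →
        dim A + (Module.finrank ℤ M : Cardinal) ≤ dim W

/-- The general case, with scaling factors `s_i` for the places. -/
theorem general (n : ℕ) (V : Set (Fin n → ℂ)) (hV : (idealOf V).IsPrime) :
    ∃ K : ℕ, ∀ N t : ℕ, K * t < N → ∀ v : Fin N → AbsoluteValue ℂ ℝ,
      ∀ s : Fin N → ℝ, (∀ i, s i ≠ 0) → ∀ B : ℝ, ∃ c : ℕ,
        ∀ R : ℕ, 1 ≤ R → ∃ E : Finset (Fin N → Fin n → ℤ),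
          E.card * (2 * R + 1) ^ t ≤ c * (2 * R + 1) ^ (n * N + n - 1) ∧
          ∀ e : Fin N → Fin n → ℤ, (∀ i j, |e i j| ≤ R) → e ∉ E →
            ∀ g : Fin n → ℂ, (∀ j, g j ≠ 0) →
              (∀ i j, |Real.log (v i (g j)) - s i * e i j| ≤ B) →
                NoAtypicalWithin v B (translate g V) := by
  obtain ⟨K, h⟩ := TH526.ZT.criterion n V hV
  refine ⟨K, fun N t hN v s hs B => ?_⟩
  obtain ⟨B', hB', hmain⟩ := h N t hN v B
  -- a lower bound for the scaling factors
  obtain ⟨σ, hσ0, hσ⟩ : ∃ σ : ℝ, 0 < σ ∧ ∀ i, σ ≤ |s i| := by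
    rcases isEmpty_or_nonempty (Fin N) with hN' | hN'
    · exact ⟨1, one_pos, fun i => (hN'.false i).elim⟩
    · obtain ⟨i₀, hi₀⟩ := Finite.exists_min fun i => |s i|
      exact ⟨|s i₀|, abs_pos.2 (hs i₀), hi₀⟩
  obtain ⟨c, hc⟩ := TH526.ZT.count_bad n N t ((B' + n * |B|) / σ)
  refine ⟨c, fun R hR => ?_⟩
  obtain ⟨E, hE, hE'⟩ := hc R hR
  refine ⟨E, hE, fun e he heE g hg hge => ?_⟩
  intro M η hη hηB A hAW hAT hA
  by_contra hcon
  rw [not_le] at hcon
  have hdim' : dim V < dim A + (Module.finrank ℤ M : Cardinal) :=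
    (TH526.ZT.dim_le_dim_tl g hg V).trans_lt hcon
  obtain ⟨T, hT, φ, hφ, hφB⟩ := hmain g hg M η hη hηB A hAW hAT hA hdim'
  refine heE (hE' e he ⟨T, hT, φ, hφ, fun i hi => ?_⟩)
  have h1 : s i * ∑ j, φ j * (e i j : ℝ) = ∑ j, φ j * Real.log (v i (g j)) -
      ∑ j, φ j * (Real.log (v i (g j)) - s i * e i j) := by
    rw [Finset.mul_sum, ← Finset.sum_sub_distrib]
    refine Finset.sum_congr rfl fun j _ => ?_
    ring
  have h2 : |∑ j, φ j * (Real.log (v i (g j)) - s i * e i j)| ≤ n * |B| := by
    calc |∑ j, φ j * (Real.log (v i (g j)) - s i * e i j)|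
        ≤ ∑ j, |φ j * (Real.log (v i (g j)) - s i * e i j)| := Finset.abs_sum_le_sum_abs _ _
      _ ≤ ∑ _j : Fin n, (1 : ℝ) * |B| := by
          refine Finset.sum_le_sum fun j _ => ?_
          rw [abs_mul]
          exact mul_le_mul (hφ ▸ norm_le_pi_norm φ j) ((hge i j).trans (le_abs_self B))
            (abs_nonneg _) zero_le_one
      _ = n * |B| := by
          rw [Finset.sum_const, Finset.card_univ, Fintype.card_fin, nsmul_eq_mul, one_mul]
  have h3 : |s i| * |∑ j, φ j * (e i j : ℝ)| ≤ B' + n * |B| := by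
    rw [← abs_mul, h1]
    exact (abs_sub _ _).trans (add_le_add (hφB i hi) h2)
  rw [le_div_iff₀ hσ0, mul_comm]
  exact (mul_le_mul_of_nonneg_right (hσ i) (abs_nonneg _)).trans h3

/-- Let `V` be an irreducible subvariety of the torus `(ℂ^×)^n`. There is a number `K` such that for
all `N` and `t` with `K t < N`:

(1) for every set of `N` prime numbers `p_i` there is a constant `c` such that for all `R ≥ 1` the
number of the integral matrices `e` with `|e_ij| ≤ R`, for which the translate of `V` by the vector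
`(∏_i p_i ^ e_ij)_j` has an atypical subvariety, is at most `c (2 R + 1) ^ (n N + n - 1 - t)`;

(2) for all absolute values `v_i`, `i < N`, of `ℂ` and all `B` there is a constant `c`
such that for all `R ≥ 1` there is a set `E` of at most `c (2 R + 1) ^ (n N + n - 1 - t)` integral
matrices such that, if `e` is an integral matrix with `|e_ij| ≤ R` which is not in `E`, and if `g` in
`(ℂ^×)^n` is such that `|log v_i(g_j) - e_ij| ≤ B` for all `i`, `j`, then the translate `g V` has no
atypical intersection with a coset bounded by `B`. -/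
theorem result (n : ℕ) (V : Set (Fin n → ℂ)) (hV : (idealOf V).IsPrime) :
    ∃ K : ℕ, ∀ N t : ℕ, K * t < N →
      (∀ p : Fin N → ℕ, (∀ i, (p i).Prime) → Function.Injective p → ∃ c : ℕ, ∀ R : ℕ, 1 ≤ R →
        Nat.card {e : Fin N → Fin n → ℤ // (∀ i j, |e i j| ≤ R) ∧
          ¬ NoAtypicalSubvariety (translate (fun j => ∏ i, (p i : ℂ) ^ e i j) V)} *
            (2 * R + 1) ^ t ≤ c * (2 * R + 1) ^ (n * N + n - 1)) ∧
      (∀ (v : Fin N → AbsoluteValue ℂ ℝ) (B : ℝ), ∃ c : ℕ,
        ∀ R : ℕ, 1 ≤ R → ∃ E : Finset (Fin N → Fin n → ℤ),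
          E.card * (2 * R + 1) ^ t ≤ c * (2 * R + 1) ^ (n * N + n - 1) ∧
          ∀ e : Fin N → Fin n → ℤ, (∀ i j, |e i j| ≤ R) → e ∉ E →
            ∀ g : Fin n → ℂ, (∀ j, g j ≠ 0) →
              (∀ i j, |Real.log (v i (g j)) - e i j| ≤ B) →
                NoAtypicalWithin v B (translate g V)) := by
  classical
  obtain ⟨K, h⟩ := general n V hV
  refine ⟨K, fun N t hN => ⟨fun p hp hpi => ?_, fun v B => ?_⟩⟩
  · have hfact : ∀ i, Fact (p i).Prime := fun i => ⟨hp i⟩
    let τ : ∀ i, ℂ →+* PadicAlgCl (p i) := fun i =>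
      Classical.choice (H936R2.exists_embedding (p i))
    let s : Fin N → ℝ := fun i => -Real.log (p i)
    have hs : ∀ i, s i ≠ 0 := fun i =>
      neg_ne_zero.2 (Real.log_pos (by exact_mod_cast (hp i).one_lt)).ne'
    obtain ⟨c, hc⟩ := h N t hN (fun i => TH526.ZT.pabs (p i) (τ i)) s hs 0
    refine ⟨c, fun R hR => ?_⟩
    obtain ⟨E, hE, hE'⟩ := hc R hR
    refine le_trans (Nat.mul_le_mul_right _ ?_) hE
    have hlog : ∀ (i : Fin N) (e : Fin N → Fin n → ℤ) (j : Fin n),
        Real.log (TH526.ZT.pabs (p i) (τ i) (∏ k, (p k : ℂ) ^ e k j)) = s i * e i j := by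
      intro i e j
      have hq : (∏ k, (p k : ℚ) ^ e k j) ≠ 0 := Finset.prod_ne_zero_iff.2 fun k _ =>
        zpow_ne_zero _ (by exact_mod_cast (hp k).ne_zero)
      have h1 : (∏ k, (p k : ℂ) ^ e k j) = ((∏ k, (p k : ℚ) ^ e k j : ℚ) : ℂ) := by
        push_cast
        rfl
      rw [h1, TH526.ZT.log_pabs _ _ _ hq]
      have h2 : padicValRat (p i) (∏ k, (p k : ℚ) ^ e k j) = e i j := by
        have h3 : ∀ t : Finset (Fin N), padicValRat (p i) (∏ k ∈ t, (p k : ℚ) ^ e k j) =
            ∑ k ∈ t, padicValRat (p i) ((p k : ℚ) ^ e k j) := by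
          intro t
          induction t using Finset.induction_on with
          | empty => simp
          | insert a t ha ih =>
            rw [Finset.prod_insert ha, Finset.sum_insert ha, padicValRat.mul, ih]
            · exact zpow_ne_zero _ (by exact_mod_cast (hp a).ne_zero)
            · exact Finset.prod_ne_zero_iff.2 fun k _ =>
                zpow_ne_zero _ (by exact_mod_cast (hp k).ne_zero)
        rw [h3, Finset.sum_eq_single i]
        · rw [padicValRat.zpow, padicValRat.self (hp i).one_lt, mul_one]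
        · intro k _ hk
          have h4 : padicValNat (p i) (p k) = 0 := by
            apply padicValNat.eq_zero_of_not_dvd
            intro hd
            exact hk (hpi ((Nat.prime_dvd_prime_iff_eq (hp i) (hp k)).1 hd)).symm
          rw [padicValRat.zpow, padicValRat.of_nat, h4]
          simp
        · intro hi
          exact absurd (Finset.mem_univ i) hi
      rw [h2]
      change -(e i j : ℝ) * Real.log (p i) = -Real.log (p i) * e i j
      ring
    have hinj : Nat.card {e : Fin N → Fin n → ℤ // (∀ i j, |e i j| ≤ R) ∧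
        ¬ NoAtypicalSubvariety (translate (fun j => ∏ i, (p i : ℂ) ^ e i j) V)} ≤
        Nat.card E := by
      refine Nat.card_le_card_of_injective (fun e => ⟨e.1, ?_⟩) ?_
      · by_contra hcon
        apply e.2.2
        have hno := hE' e.1 e.2.1 hcon (fun j => ∏ i, (p i : ℂ) ^ e.1 i j)
          (fun j => Finset.prod_ne_zero_iff.2 fun k _ =>
            zpow_ne_zero _ (by exact_mod_cast (hp k).ne_zero))
          (fun i j => by rw [hlog, sub_self, abs_zero])
        rintro M η ⟨k, hk, hηk⟩ A hA hAT hAp
        refine hno M η (fun j h0 => ?_) (fun i j => ?_) A hA hAT hAp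
        · have := hηk j
          rw [h0, zero_pow hk.ne'] at this
          exact zero_ne_one this
        · have h1 := congrArg (TH526.ZT.pabs (p i) (τ i)) (hηk j)
          rw [map_pow, map_one] at h1
          have h2 := (pow_eq_one_iff_of_nonneg (AbsoluteValue.nonneg _ _) hk.ne').1 h1
          rw [h2, Real.log_one, abs_zero]
      · intro e e' hee
        exact Subtype.ext (congrArg (fun z : E => (z : Fin N → Fin n → ℤ)) hee)
    have hEc : Nat.card E = E.card := by rw [Nat.card_eq_fintype_card, Fintype.card_coe]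
    rwa [hEc] at hinj
  · obtain ⟨c, hc⟩ := h N t hN v (fun _ => 1) (fun _ => one_ne_zero) B
    refine ⟨c, fun R hR => ?_⟩
    obtain ⟨E, hE, hE'⟩ := hc R hR
    refine ⟨E, hE, fun e he heE g hg hge => hE' e he heE g hg fun i j => ?_⟩
    rw [one_mul]
    exact hge i j

end Pool.Agent.Results.MP_b7926e_nt.AlmostAllSUnitTranslates
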