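import Pool.Agent.TH526.ZT.F

/-!
# MP_b7926e_nt: Zilber's conjecture in exponential families of sparse systems

Let `A_1, …, A_r` be arbitrary finite nonempty sets of exponents in `ℤ^n`. Consider the subvarieties
`V_m` of the torus `(ℂ^×)^n` defined by the `r` Laurent polynomials
`f_j = ∑_{α ∈ A_j} c_jα u_jα ^ m x ^ α`, where the `c_jα` are arbitrary nonzero complex numbers and the
`u_jα` are nonzero rational numbers. Suppose that for `N` prime numbers `p_i` (small or large) the
following general position condition holds: for every choice of two different exponents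
`α_j, α'_j` in every `A_j`, any `t` of the `N` vectors
`(v_{p_i}(u_{jα_j}) - v_{p_i}(u_{jα'_j}))_{j = 1, …, r}` span `ℚ^r`, where `t ∏_j |A_j| (|A_j| - 1) < N`.
Then for all but finitely many integers `m` the variety `V_m` has no atypical intersection with
torsion cosets: every irreducible subset `W` of the intersection of `V_m` with a torsion coset of
codimension `k` satisfies `dim W ≤ n - r - k` (in particular all components of `V_m` have dimension
`n - r`, and `V_m` has no point on algebraic subgroups of dimension less than `r`).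

More generally the coefficients may be `c_jα ∏_k u_kjα ^ m_k`, with an integral point `m` of a closed
cone and complex numbers `u_kjα`, the primes may be any absolute values `v_i` of the field `ℂ`, archimedean
or not (for example those which belong to embeddings of a number field), and the torsion cosets may be all cosets `η H` with all `|log v_i(η_l)|` bounded.

The starting file `MP_defd1c_ag.TorusCompleteIntersections` is about a positive proportion of the
sparse systems with integral coefficients (one residue class).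
-/

set_option autoImplicit false

namespace Pool.Agent.Results.MP_b7926e_nt.ExponentialSystems

open MvPolynomial
open Pool.Agent.Results.MP_b7926e_nt.NoAtypical (coset idealOf dim mem_idealOf)

/-- The subvariety of the torus `(ℂ^×)^n` which is defined by the Laurent polynomials
`∑_{α ∈ A_j} b_jα x ^ α`, `j < r`. -/
def sparseSystem {n r : ℕ} (A : Fin r → Finset (Fin n → ℤ)) (b : Fin r → (Fin n → ℤ) → ℂ) :
    Set (Fin n → ℂ) :=
  {x | (∀ l, x l ≠ 0) ∧ ∀ j, ∑ α ∈ A j, b j α * ∏ l, x l ^ α l = 0}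

/-- Every irreducible subset `W` of the intersection of the system of `r` equations with a torsion
coset `η H` satisfies `dim W ≤ n - r - codim H`, where `codim H = rank M`. -/
def Typical {n r : ℕ} (A : Fin r → Finset (Fin n → ℤ)) (b : Fin r → (Fin n → ℤ) → ℂ) : Prop :=
  ∀ (M : Submodule ℤ (Fin n → ℤ)) (η : Fin n → ℂ), (∃ m : ℕ, 0 < m ∧ ∀ l, η l ^ m = 1) →
    ∀ W : Set (Fin n → ℂ), W ⊆ sparseSystem A b → W ⊆ coset M η → (idealOf W).IsPrime →
      dim W + (r : Cardinal) + (Module.finrank ℤ M : Cardinal) ≤ (n : Cardinal)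

/-- The same for all cosets `η H` such that all the numbers `log v_i(η_l)` are bounded by `B`. -/
def TypicalWithin {n r N : ℕ} (v : Fin N → AbsoluteValue ℂ ℝ) (B : ℝ)
    (A : Fin r → Finset (Fin n → ℤ)) (b : Fin r → (Fin n → ℤ) → ℂ) : Prop :=
  ∀ (M : Submodule ℤ (Fin n → ℤ)) (η : Fin n → ℂ), (∀ l, η l ≠ 0) →
    (∀ i l, |Real.log (v i (η l))| ≤ B) →
      ∀ W : Set (Fin n → ℂ), W ⊆ sparseSystem A b → W ⊆ coset M η → (idealOf W).IsPrime →
        dim W + (r : Cardinal) + (Module.finrank ℤ M : Cardinal) ≤ (n : Cardinal)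

/-- For every nonzero `m` in `C` and every choice `s` of two different exponents in every `A_j`, any
`t` of the vectors `(∑_k m_k (log v_i(u_kjα_j) - log v_i(u_kjα'_j)))_j`, `i < N`, span `ℝ^r`. -/
def GeneralPosition {n r q N : ℕ} (t : ℕ) (v : Fin N → AbsoluteValue ℂ ℝ)
    (A : Fin r → Finset (Fin n → ℤ)) (u : Fin q → Fin r → (Fin n → ℤ) → ℂ)
    (C : Set (Fin q → ℝ)) : Prop :=
  ∀ s : Fin r → (Fin n → ℤ) × (Fin n → ℤ), (∀ j, (s j).1 ∈ A j ∧ (s j).2 ∈ A j ∧
      (s j).1 ≠ (s j).2) →
    ∀ m ∈ C, m ≠ 0 → ∀ T : Finset (Fin N), T.card = t →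
      Submodule.span ℝ (Set.range fun (i : T) (j : Fin r) => ∑ k, m k *
        (Real.log (v i (u k j (s j).1)) - Real.log (v i (u k j (s j).2)))) = ⊤

/-- The general case. -/
theorem general {n r : ℕ} (A : Fin r → Finset (Fin n → ℤ)) (hA : ∀ j, (A j).Nonempty)
    (c : Fin r → (Fin n → ℤ) → ℂ) (hc : ∀ j, ∀ α ∈ A j, c j α ≠ 0) (N t : ℕ)
    (hN : (∏ j, (A j).card * ((A j).card - 1)) * t < N) (v : Fin N → AbsoluteValue ℂ ℝ) (q : ℕ) (u : Fin q → Fin r → (Fin n → ℤ) → ℂ)
    (hu : ∀ k j, ∀ α ∈ A j, u k j α ≠ 0) (C : Set (Fin q → ℝ)) (hC : IsClosed C)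
    (hcone : ∀ m ∈ C, ∀ s : ℝ, 0 < s → s • m ∈ C) (hgen : GeneralPosition t v A u C) (B : ℝ) :
    {m : Fin q → ℤ | (fun k => (m k : ℝ)) ∈ C ∧
      ¬ TypicalWithin v B A (fun j α => c j α * ∏ k, u k j α ^ m k)}.Finite := by
  classical
  obtain ⟨B', hmain⟩ := TH526.ZT.sys_criterion A hA N t (by rwa [TH526.ZT.card_pairs]) v B
  -- the contribution of the constants
  let D : ℝ := ∑ i, ∑ j, ∑ α ∈ A j, |Real.log (v i (c j α))|
  have hD : ∀ i j, ∀ α ∈ A j, |Real.log (v i (c j α))| ≤ D := by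
    intro i j α hα
    calc |Real.log (v i (c j α))| ≤ ∑ α ∈ A j, |Real.log (v i (c j α))| :=
          Finset.single_le_sum (f := fun α => |Real.log (v i (c j α))|)
            (fun _ _ => abs_nonneg _) hα
      _ ≤ ∑ j, ∑ α ∈ A j, |Real.log (v i (c j α))| :=
          Finset.single_le_sum (f := fun j => ∑ α ∈ A j, |Real.log (v i (c j α))|)
            (fun _ _ => Finset.sum_nonneg fun _ _ => abs_nonneg _) (Finset.mem_univ j)
      _ ≤ D := Finset.single_le_sum (f := fun i => ∑ j, ∑ α ∈ A j, |Real.log (v i (c j α))|)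
            (fun _ _ => Finset.sum_nonneg fun _ _ => Finset.sum_nonneg fun _ _ => abs_nonneg _)
            (Finset.mem_univ i)
  have hR : ∀ s : Fin r → (Fin n → ℤ) × (Fin n → ℤ), ∃ R : ℝ, s ∈ TH526.ZT.pairs A →
      ∀ m ∈ C, ∀ T : Finset (Fin N), T.card = t → ∀ φ : Fin r → ℝ, ‖φ‖ = 1 →
        (∀ i ∈ T, |∑ j, φ j * ∑ k, m k * (Real.log (v i (u k j (s j).1)) -
          Real.log (v i (u k j (s j).2)))| ≤ B' + r * (2 * D)) → ‖m‖ ≤ R := by
    intro s
    by_cases hs : s ∈ TH526.ZT.pairs A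
    · obtain ⟨R, hR⟩ := TH526.ZT.cone_bound t (fun k i j => Real.log (v i (u k j (s j).1)) -
        Real.log (v i (u k j (s j).2))) C hC hcone (hgen s fun j => by
          have := Fintype.mem_piFinset.1 hs j
          rwa [Finset.mem_offDiag] at this) (B' + r * (2 * D))
      exact ⟨R, fun _ => hR⟩
    · exact ⟨0, fun h => absurd h hs⟩
  choose R hR using hR
  let R' : ℝ := ∑ s ∈ TH526.ZT.pairs A, |R s|
  have hfin : (Set.pi Set.univ fun _ : Fin q => Set.Icc (-⌈R'⌉) ⌈R'⌉).Finite :=
    Set.Finite.pi fun _ => Set.finite_Icc _ _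
  refine hfin.subset ?_
  rintro m ⟨hmC, hm⟩
  have hu0 : ∀ j, ∀ α ∈ A j, (∏ k, u k j α ^ m k) ≠ 0 := fun j α hα =>
    Finset.prod_ne_zero_iff.2 fun k _ => zpow_ne_zero _ (hu k j α hα)
  have hb0 : ∀ j, ∀ α ∈ A j, c j α * ∏ k, u k j α ^ m k ≠ 0 := fun j α hα =>
    mul_ne_zero (hc j α hα) (hu0 j α hα)
  have hlog : ∀ i j, ∀ α ∈ A j, Real.log (v i (c j α * ∏ k, u k j α ^ m k)) =
      Real.log (v i (c j α)) + ∑ k, (m k : ℝ) * Real.log (v i (u k j α)) := by
    intro i j α hα
    rw [map_mul, Real.log_mul ((v i).ne_zero (hc j α hα)) ((v i).ne_zero (hu0 j α hα)), map_prod,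
      Real.log_prod]
    · congr 1
      refine Finset.sum_congr rfl fun k _ => ?_
      rw [map_zpow₀, Real.log_zpow]
    · intro k _
      rw [map_zpow₀]
      exact zpow_ne_zero _ ((v i).ne_zero (hu k j α hα))
  rw [TypicalWithin] at hm
  push Not at hm
  obtain ⟨M, η, hη, hηB, W, hWV, hWT, hW, hdim⟩ := hm
  obtain ⟨T, hT, s, hs, φ, hφ, hφB⟩ := hmain _ hb0 M η hη hηB W hWV hWT hW hdim
  have hsA : ∀ j, (s j).1 ∈ A j ∧ (s j).2 ∈ A j := fun j => by
    have := Fintype.mem_piFinset.1 hs j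
    rw [Finset.mem_offDiag] at this
    exact ⟨this.1, this.2.1⟩
  have hnorm := hR s hs _ hmC T hT φ hφ (fun i hi => by
    have h1 := hφB i hi
    have h2 : ∑ j, φ j * ∑ k, (m k : ℝ) * (Real.log (v i (u k j (s j).1)) -
        Real.log (v i (u k j (s j).2))) =
        ∑ j, φ j * (Real.log (v i (c j (s j).1 * ∏ k, u k j (s j).1 ^ m k)) -
          Real.log (v i (c j (s j).2 * ∏ k, u k j (s j).2 ^ m k))) -
        ∑ j, φ j * (Real.log (v i (c j (s j).1)) - Real.log (v i (c j (s j).2))) := by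
      rw [← Finset.sum_sub_distrib]
      refine Finset.sum_congr rfl fun j _ => ?_
      rw [hlog i j _ (hsA j).1, hlog i j _ (hsA j).2]
      simp only [mul_sub, Finset.sum_sub_distrib]
      ring
    have h3 : |∑ j, φ j * (Real.log (v i (c j (s j).1)) - Real.log (v i (c j (s j).2)))| ≤
        r * (2 * D) := by
      calc |∑ j, φ j * (Real.log (v i (c j (s j).1)) - Real.log (v i (c j (s j).2)))|
          ≤ ∑ j, |φ j * (Real.log (v i (c j (s j).1)) - Real.log (v i (c j (s j).2)))| :=
            Finset.abs_sum_le_sum_abs _ _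
        _ ≤ ∑ _j : Fin r, (1 : ℝ) * (2 * D) := by
            refine Finset.sum_le_sum fun j _ => ?_
            rw [abs_mul]
            refine mul_le_mul (hφ ▸ norm_le_pi_norm φ j) ?_ (abs_nonneg _) zero_le_one
            calc |Real.log (v i (c j (s j).1)) - Real.log (v i (c j (s j).2))|
                ≤ |Real.log (v i (c j (s j).1))| + |Real.log (v i (c j (s j).2))| := abs_sub _ _
              _ ≤ D + D := add_le_add (hD i j _ (hsA j).1) (hD i j _ (hsA j).2)
              _ = 2 * D := by ring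
        _ = r * (2 * D) := by
            rw [Finset.sum_const, Finset.card_univ, Fintype.card_fin, nsmul_eq_mul, one_mul]
    rw [h2]
    exact (abs_sub _ _).trans (add_le_add h1 h3))
  have hRs : R s ≤ R' := (le_abs_self _).trans
    (Finset.single_le_sum (f := fun s => |R s|) (fun _ _ => abs_nonneg _) hs)
  intro k _
  have h1 : |(m k : ℝ)| ≤ R' :=
    ((norm_le_pi_norm (fun k => (m k : ℝ)) k).trans hnorm).trans hRs
  have h2 : |(m k : ℝ)| ≤ (⌈R'⌉ : ℝ) := h1.trans (Int.le_ceil R')
  have h3 : |m k| ≤ ⌈R'⌉ := by exact_mod_cast h2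
  exact Set.mem_Icc.2 (abs_le.1 h3)

/-- Let `A_1, …, A_r` be finite nonempty subsets of `ℤ^n`, let `c_jα` be nonzero complex numbers, and let
`t ∏_j |A_j| (|A_j| - 1) < N`.

(1) Let `u_jα` be nonzero rational numbers and `p_i`, `i < N`, prime numbers, such that for every
choice of two different exponents `α_j, α'_j` in every `A_j` any `t` of the vectors
`(v_{p_i}(u_{jα_j}) - v_{p_i}(u_{jα'_j}))_j` span `ℚ^r`. Then for all but finitely many integers `m` the
subvariety of `(ℂ^×)^n` defined by the Laurent polynomials `∑_{α ∈ A_j} c_jα u_jα ^ m x ^ α` has no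
atypical intersection with a torsion coset.

(2) Let `u_kjα`, `k < q`, be nonzero complex numbers, `v_i`, `i < N`, absolute values of `ℂ`, `C` a closed cone in `ℝ^q`, in general position (`GeneralPosition`), and `B` a real number. Then
for all but finitely many integral points `m` of `C` the subvariety defined by the Laurent
polynomials `∑_{α ∈ A_j} c_jα ∏_k u_kjα ^ m_k x ^ α` has no atypical intersection with a coset bounded
by `B`. -/
theorem result {n r : ℕ} (A : Fin r → Finset (Fin n → ℤ)) (hA : ∀ j, (A j).Nonempty)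
    (c : Fin r → (Fin n → ℤ) → ℂ) (hc : ∀ j, ∀ α ∈ A j, c j α ≠ 0) (N t : ℕ)
    (hN : (∏ j, (A j).card * ((A j).card - 1)) * t < N) :
    (∀ p : Fin N → ℕ, (∀ i, (p i).Prime) → ∀ u : Fin r → (Fin n → ℤ) → ℚ,
      (∀ j, ∀ α ∈ A j, u j α ≠ 0) →
      (∀ s : Fin r → (Fin n → ℤ) × (Fin n → ℤ), (∀ j, (s j).1 ∈ A j ∧ (s j).2 ∈ A j ∧
          (s j).1 ≠ (s j).2) → ∀ T : Finset (Fin N), T.card = t →
        Submodule.span ℚ (Set.range fun (i : T) (j : Fin r) =>
          (((padicValRat (p i) (u j (s j).1) - padicValRat (p i) (u j (s j).2) : ℤ)) : ℚ)) = ⊤) →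
      {m : ℤ | ¬ Typical A (fun j α => c j α * (u j α : ℂ) ^ m)}.Finite) ∧
    (∀ (v : Fin N → AbsoluteValue ℂ ℝ) (q : ℕ) (u : Fin q → Fin r → (Fin n → ℤ) → ℂ), (∀ k j, ∀ α ∈ A j, u k j α ≠ 0) →
      ∀ C : Set (Fin q → ℝ), IsClosed C → (∀ m ∈ C, ∀ s : ℝ, 0 < s → s • m ∈ C) →
        GeneralPosition t v A u C → ∀ B : ℝ,
          {m : Fin q → ℤ | (fun k => (m k : ℝ)) ∈ C ∧
            ¬ TypicalWithin v B A (fun j α => c j α * ∏ k, u k j α ^ m k)}.Finite) := by
  classical
  refine ⟨fun p hp u hu hspan => ?_, fun v q u hu C hC hcone hgen B =>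
    general A hA c hc N t hN v q u hu C hC hcone hgen B⟩
  have hfact : ∀ i, Fact (p i).Prime := fun i => ⟨hp i⟩
  let τ : ∀ i, ℂ →+* PadicAlgCl (p i) := fun i => Classical.choice (H936R2.exists_embedding (p i))
  have hgp : GeneralPosition t (fun i => TH526.ZT.pabs (p i) (τ i)) A
      (fun (_ : Fin 1) j α => (u j α : ℂ)) Set.univ := by
    intro s hs m _ hm T hT
    have hm0 : m 0 ≠ 0 := by
      intro h0
      apply hm
      funext k
      rw [Subsingleton.elim k 0]
      exact h0
    have h1 := TH526.ZT.span_real _ (hspan s hs T hT) (fun i : T => -(m 0 * Real.log (p i)))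
      (fun i => by
        have h1 : 0 < Real.log (p i) := Real.log_pos (by exact_mod_cast (hp i).one_lt)
        exact neg_ne_zero.2 (mul_ne_zero hm0 h1.ne'))
    rw [← h1]
    congr 2
    funext i j
    simp only [Finset.univ_unique, Fin.default_eq_zero, Finset.sum_singleton]
    rw [TH526.ZT.log_pabs _ _ _ (hu j _ (hs j).1), TH526.ZT.log_pabs _ _ _ (hu j _ (hs j).2.1)]
    push_cast
    ring
  have hfin := general A hA c hc N t hN (fun i => TH526.ZT.pabs (p i) (τ i)) 1
    (fun _ j α => (u j α : ℂ))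
    (fun _ j α hα => Rat.cast_ne_zero.2 (hu j α hα)) Set.univ
    isClosed_univ (fun _ _ _ _ => Set.mem_univ _) hgp 0
  -- from vectors `m : Fin 1 → ℤ` to integers
  have hfin2 := hfin.image (fun m : Fin 1 → ℤ => m 0)
  refine hfin2.subset ?_
  intro m hm
  refine ⟨fun _ => m, ⟨Set.mem_univ _, fun hno => hm ?_⟩, rfl⟩
  have hb : (fun (j : Fin r) (α : Fin n → ℤ) =>
      c j α * ∏ k : Fin 1, (fun (_ : Fin 1) (j : Fin r) (α : Fin n → ℤ) => (u j α : ℂ)) k j α ^
        (fun _ : Fin 1 => m) k) = fun j α => c j α * (u j α : ℂ) ^ m := by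
    funext j α
    simp
  rw [hb] at hno
  rintro M η ⟨k, hk, hηk⟩ W hWV hWT hW
  refine hno M η (fun j h0 => ?_) (fun i j => ?_) W hWV hWT hW
  · have := hηk j
    rw [h0, zero_pow hk.ne'] at this
    exact zero_ne_one this
  · have h1 := congrArg (TH526.ZT.pabs (p i) (τ i)) (hηk j)
    rw [map_pow, map_one] at h1
    have h2 := (pow_eq_one_iff_of_nonneg (AbsoluteValue.nonneg _ _) hk.ne').1 h1
    rw [h2, Real.log_one, abs_zero]

end Pool.Agent.Results.MP_b7926e_nt.ExponentialSystems
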